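import Mathlib
import Pool.Agent.Helper17.R5.Sheet

/-! Row LINK of the sheet `Pool.Agent.Helper17.R5.Sheet`. -/

set_option autoImplicit false

namespace Pool.Helper17.R5

open Polynomial in
theorem LINK_cubic (A B : ℤ) : ∃ S : Finset ℤ, S.card ≤ 3 ∧
    ∀ x : ℤ, x ^ 3 + A * x + B = 0 → x ∈ S := by
  classical
  let p : ℤ[X] := X ^ 3 + C A * X + C B
  have hdeg : p.natDegree = 3 := by
    show (X ^ 3 + C A * X + C B : ℤ[X]).natDegree = 3
    compute_degree!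
  have hp : p ≠ 0 := by
    intro h
    rw [h] at hdeg
    simp at hdeg
  refine ⟨p.roots.toFinset, ?_, ?_⟩
  · calc p.roots.toFinset.card ≤ Multiset.card p.roots := Multiset.toFinset_card_le _
      _ ≤ p.natDegree := card_roots' p
      _ = 3 := hdeg
  · intro x hx
    rw [Multiset.mem_toFinset, mem_roots hp, IsRoot.def]
    simpa [p] using hx

theorem LINK_lin (P κ m : ℤ) (hκ : κ ≠ 0) : ∃ S : Finset ℤ, S.card ≤ 2 ∧
    ∀ x : ℤ, (P + κ * x) ^ 2 = m ^ 2 → x ∈ S := by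
  classical
  refine ⟨{(m - P) / κ, (-m - P) / κ}, Finset.card_le_two, ?_⟩
  intro x hx
  rcases sq_eq_sq_iff_eq_or_eq_neg.1 hx with h | h
  · have : m - P = κ * x := by linarith
    rw [this, Int.mul_ediv_cancel_left _ hκ]
    simp
  · have : -m - P = κ * x := by linarith
    rw [this, Int.mul_ediv_cancel_left _ hκ]
    simp

/-- the coefficient of `x` in `pol (nf y x) (vv i) (vv j)` -/
def LINKkap (i j : Fin 5) : ℤ :=
  2 * (vv i).2.1 * (vv j).2.1 - ((vv i).1 * (vv j).2.2 + (vv i).2.2 * (vv j).1)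

theorem LINK_kap : ∀ i j : Fin 5, i ≠ j → LINKkap i j ≠ 0 := by
  decide

theorem LINK_pol (y : Fin 5 → ℤ) (x : ℤ) (i j : Fin 5) :
    pol (nf y x) (vv i) (vv j) = pol (nf y 0) (vv i) (vv j) + LINKkap i j * x := by
  simp only [pol, nf, tfa, tfb, tfh, tfk, tfd, tfe, LINKkap]
  ring

theorem LINK_bad (y : Fin 5 → ℤ) : ∃ S : Finset ℤ, S.card ≤ 53 ∧
    (∀ x : ℤ, x ^ 3 + aA y * x + aB y = 0 → x ∈ S) ∧
    ∀ (x : ℤ) (i j : Fin 5), i ≠ j →
      pol (nf y x) (vv i) (vv j) ^ 2 = 4 * y i ^ 2 * y j ^ 2 → x ∈ S := by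
  classical
  obtain ⟨S0, hS0, h0⟩ := LINK_cubic (aA y) (aB y)
  have h1 : ∀ p : Fin 5 × Fin 5, ∃ S : Finset ℤ, S.card ≤ 2 ∧ ∀ x : ℤ, p.1 ≠ p.2 →
      pol (nf y x) (vv p.1) (vv p.2) ^ 2 = 4 * y p.1 ^ 2 * y p.2 ^ 2 → x ∈ S := by
    rintro ⟨i, j⟩
    by_cases hij : i = j
    · exact ⟨∅, by simp, fun x h => absurd hij h⟩
    · obtain ⟨S, hS, h⟩ := LINK_lin (pol (nf y 0) (vv i) (vv j)) (LINKkap i j)
        (2 * y i * y j) (LINK_kap i j hij)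
      refine ⟨S, hS, ?_⟩
      intro x _ hx
      apply h
      rw [← LINK_pol]
      simp only at hx
      rw [hx]
      ring
  choose S1 hS1 h1 using h1
  refine ⟨S0 ∪ Finset.univ.biUnion S1, ?_, ?_, ?_⟩
  · calc (S0 ∪ Finset.univ.biUnion S1).card ≤ S0.card + (Finset.univ.biUnion S1).card :=
        Finset.card_union_le _ _
      _ ≤ 3 + ∑ p : Fin 5 × Fin 5, (S1 p).card := by
        gcongr
        exact Finset.card_biUnion_le
      _ ≤ 3 + ∑ p : Fin 5 × Fin 5, 2 := by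
        gcongr with p
        exact hS1 p
      _ = 53 := by simp
  · intro x hx
    exact Finset.mem_union_left _ (h0 x hx)
  · intro x i j hij hx
    refine Finset.mem_union_right _ (Finset.mem_biUnion.2 ⟨(i, j), Finset.mem_univ _, ?_⟩)
    exact h1 (i, j) x hij hx

theorem LINK_inj (hR : ST_REL) (N : ℕ) (t t' : Fin 5 → ℕ) (x x' : ℤ)
    (hg : Good (yy N t)) (hg' : Good (yy N t')) (hp : ∀ i, 0 < yy N t i)
    (hp' : ∀ i, 0 < yy N t' i) (h : nf (yy N t) x = nf (yy N t') x') : t = t' ∧ x = x' := by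
  have hy : yy N t = yy N t' := by
    funext i
    have h1 := ((hR _ hg).2.2.2 x).1 i
    have h2 := ((hR _ hg').2.2.2 x').1 i
    rw [h, h2] at h1
    have h3 : yy N t' i = yy N t i := by
      rcases sq_eq_sq_iff_eq_or_eq_neg.1 h1 with h3 | h3
      · exact h3
      · have := hp i
        have := hp' i
        omega
    exact h3.symm
  have hM : MM ≠ 0 := by
    unfold MM
    exact_mod_cast Nat.factorial_ne_zero 1000
  constructor
  · funext i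
    have h4 := congrFun hy i
    unfold yy at h4
    have h5 : MM * (sh i * (N : ℤ) + (t i : ℤ)) = MM * (sh i * (N : ℤ) + (t' i : ℤ)) := by
      linarith
    have h6 := mul_left_cancel₀ hM h5
    have h7 : (t i : ℤ) = (t' i : ℤ) := by linarith
    exact_mod_cast h7
  · rw [hy] at h
    have h8 : (nf (yy N t') x).2.2.1 = (nf (yy N t') x').2.2.1 := by rw [h]
    simp only [nf] at h8
    linarith

theorem LINK_mem (hR : ST_REL) (C0 C : ℤ) (hC0 : 1 ≤ C0) (N : ℕ) (y : Fin 5 → ℤ)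
    (hg : Good y) (hp : ∀ i, 0 < y i ∧ y i ≤ C0 * (N : ℤ))
    (hb : |bb y| ≤ C0 * (N : ℤ) ^ 2) (hc : |cc y| ≤ C0 * (N : ℤ) ^ 2)
    (hd : |dd y| ≤ C0 * (N : ℤ) ^ 2)
    (h6 : 9 * (y 0 ^ 2 + y 2 ^ 2 + y 3 ^ 2) - (y 1 ^ 2 + y 4 ^ 2) ≤ -(N : ℤ) ^ 2)
    (x : ℤ) (hx : |x| ≤ C * (N : ℤ) ^ 2) (hY : ∃ Y : ℤ, Y ^ 2 = x ^ 3 + aA y * x + aB y)
    (h0 : x ^ 3 + aA y * x + aB y ≠ 0)
    (hpol : ∀ i j : Fin 5, i ≠ j →
      pol (nf y x) (vv i) (vv j) ^ 2 ≠ 4 * y i ^ 2 * y j ^ 2) :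
    nf y x ∈ SN (C0 ^ 2 + 2 * C0 + |C|) N := by
  obtain ⟨hev, hv6, hdisc⟩ := (hR y hg).2.2.2 x
  have hN2 : (0 : ℤ) ≤ (N : ℤ) ^ 2 := by positivity
  have hCa : (0 : ℤ) ≤ |C| := abs_nonneg C
  have hCC : C * (N : ℤ) ^ 2 ≤ |C| * (N : ℤ) ^ 2 :=
    mul_le_mul_of_nonneg_right (le_abs_self C) hN2
  have hCN : 0 ≤ |C| * (N : ℤ) ^ 2 := mul_nonneg hCa hN2
  have hC0N : 0 ≤ C0 * (N : ℤ) ^ 2 := mul_nonneg (by linarith) hN2
  have hC02 : 0 ≤ C0 ^ 2 * (N : ℤ) ^ 2 := by positivity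
  have hexp : (C0 ^ 2 + 2 * C0 + |C|) * (N : ℤ) ^ 2 =
      C0 ^ 2 * (N : ℤ) ^ 2 + 2 * (C0 * (N : ℤ) ^ 2) + |C| * (N : ℤ) ^ 2 := by ring
  have hsq : ∀ i, |y i ^ 2| ≤ C0 ^ 2 * (N : ℤ) ^ 2 := by
    intro i
    obtain ⟨h1, h2⟩ := hp i
    rw [abs_of_nonneg (by positivity)]
    calc y i ^ 2 ≤ (C0 * (N : ℤ)) ^ 2 := pow_le_pow_left₀ h1.le h2 2
      _ = C0 ^ 2 * (N : ℤ) ^ 2 := by ring
  refine ⟨⟨?_, ?_, ?_, ?_, ?_, ?_⟩, ?_, ?_, ?_, ?_⟩
  · show |y 0 ^ 2| ≤ _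
    rw [hexp]
    linarith [hsq 0]
  · show |bb y| ≤ _
    rw [hexp]
    linarith
  · show |2 * cc y + x| ≤ _
    rw [hexp]
    have h1 : |2 * cc y + x| ≤ 2 * |cc y| + |x| := by
      calc |2 * cc y + x| ≤ |2 * cc y| + |x| := abs_add_le _ _
        _ = 2 * |cc y| + |x| := by rw [abs_mul]; norm_num
    linarith
  · show |cc y - x| ≤ _
    rw [hexp]
    have h1 : |cc y - x| ≤ |cc y| + |x| := by
      rw [sub_eq_add_neg]
      calc |cc y + -x| ≤ |cc y| + |-x| := abs_add_le _ _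
        _ = |cc y| + |x| := by rw [abs_neg]
    linarith
  · show |dd y| ≤ _
    rw [hexp]
    linarith
  · show |y 2 ^ 2| ≤ _
    rw [hexp]
    linarith [hsq 2]
  · intro i
    exact ⟨y i, (hp i).1.ne', hev i⟩
  · rw [hv6]
    exact h6
  · obtain ⟨Y, hY⟩ := hY
    refine ⟨Y, ?_, ?_⟩
    · rintro rfl
      apply h0
      rw [← hY]
      norm_num
    · rw [hdisc, hY]
  · intro i j hij
    rw [hev i, hev j]
    exact hpol i j hij

theorem st_LINK (hE : ST_EXTRA) (hR : ST_REL) (hB : ST_BND) : ST_LINK := by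
  classical
  intro ε hε C
  obtain ⟨C0, hC0, hB⟩ := hB
  obtain ⟨D, hD, hE⟩ := hE ε hε (C0 ^ 2 + 2 * C0 + |C|)
  refine ⟨53 + D, by linarith, ?_⟩
  intro N hN
  obtain ⟨hfin, hcard⟩ := hE N hN
  choose Bd hBd hB0 hB1 using fun t : Fin 5 → ℕ => LINK_bad (yy N t)
  have hI : ∀ t : Fin 5 → ℕ, {x : ℤ | |x| ≤ C * (N : ℤ) ^ 2 ∧
      ∃ Y : ℤ, Y ^ 2 = x ^ 3 + aA (yy N t) * x + aB (yy N t)}.Finite := by
    intro t
    apply (Set.finite_Icc (-(C * (N : ℤ) ^ 2)) (C * (N : ℤ) ^ 2)).subset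
    rintro x ⟨hx, _⟩
    exact abs_le.1 hx
  let G : (Fin 5 → ℕ) → Finset ℤ := fun t => (hI t).toFinset \ Bd t
  have h1 : ∀ t, Ix C N (aA (yy N t)) (aB (yy N t)) ≤ 53 + (G t).card := by
    intro t
    have h2 : Ix C N (aA (yy N t)) (aB (yy N t)) = (hI t).toFinset.card := by
      unfold Ix
      exact Set.ncard_eq_toFinset_card _ (hI t)
    rw [h2]
    have h3 := Finset.card_le_card_sdiff_add_card (s := (hI t).toFinset) (t := Bd t)
    have h4 := hBd t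
    show _ ≤ 53 + ((hI t).toFinset \ Bd t).card
    omega
  have h5 : ∑ t ∈ Box N, (G t).card ≤ (SN (C0 ^ 2 + 2 * C0 + |C|) N).ncard := by
    rw [← Finset.card_sigma, Set.ncard_eq_toFinset_card _ hfin]
    apply Finset.card_le_card_of_injOn (fun p => nf (yy N p.1) p.2)
    · rintro ⟨t, x⟩ hp
      rw [Finset.mem_coe, Finset.mem_sigma] at hp
      obtain ⟨ht, hx⟩ := hp
      simp only at ht hx
      rw [Finset.mem_sdiff, Set.Finite.mem_toFinset] at hx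
      obtain ⟨⟨hx1, hx2⟩, hx3⟩ := hx
      obtain ⟨hg, hpos, hb, hc, hd, h6, -, -, -, -⟩ := hB N hN t ht
      rw [Finset.mem_coe, Set.Finite.mem_toFinset]
      refine LINK_mem hR C0 C hC0 N (yy N t) hg hpos hb hc hd h6 x hx1 hx2 ?_ ?_
      · intro h
        exact hx3 (hB0 t x h)
      · intro i j hij h
        exact hx3 (hB1 t x i j hij h)
    · rintro ⟨t, x⟩ hp ⟨t', x'⟩ hp' heq
      rw [Finset.mem_coe, Finset.mem_sigma] at hp hp'
      obtain ⟨hg, hpos, -⟩ := hB N hN t hp.1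
      obtain ⟨hg', hpos', -⟩ := hB N hN t' hp'.1
      obtain ⟨h7, h8⟩ := LINK_inj hR N t t' x x' hg hg' (fun i => (hpos i).1)
        (fun i => (hpos' i).1) heq
      subst h7
      subst h8
      rfl
  have h9 : ∑ t ∈ Box N, Ix C N (aA (yy N t)) (aB (yy N t)) ≤
      53 * N ^ 5 + (SN (C0 ^ 2 + 2 * C0 + |C|) N).ncard := by
    calc ∑ t ∈ Box N, Ix C N (aA (yy N t)) (aB (yy N t)) ≤ ∑ t ∈ Box N, (53 + (G t).card) :=
        Finset.sum_le_sum fun t _ => h1 t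
      _ = (Box N).card * 53 + ∑ t ∈ Box N, (G t).card := by
        rw [Finset.sum_add_distrib, Finset.sum_const, smul_eq_mul]
      _ ≤ 53 * N ^ 5 + (SN (C0 ^ 2 + 2 * C0 + |C|) N).ncard := by
        have h10 : (Box N).card = N ^ 5 := by
          unfold Box
          rw [Fintype.card_piFinset]
          simp
        rw [h10]
        linarith
  have h11 : (∑ t ∈ Box N, (Ix C N (aA (yy N t)) (aB (yy N t)) : ℝ)) ≤
      53 * (N : ℝ) ^ 5 + ((SN (C0 ^ 2 + 2 * C0 + |C|) N).ncard : ℝ) := by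
    exact_mod_cast h9
  have hN1 : (1 : ℝ) ≤ (N : ℝ) := by exact_mod_cast hN
  have h12 : (N : ℝ) ^ 5 ≤ (N : ℝ) ^ (5 + ε) := by
    have h13 : (N : ℝ) ^ 5 = (N : ℝ) ^ ((5 : ℝ)) := by
      rw [show (5 : ℝ) = ((5 : ℕ) : ℝ) by norm_num, Real.rpow_natCast]
    rw [h13]
    exact Real.rpow_le_rpow_of_exponent_le hN1 (by linarith)
  calc (∑ t ∈ Box N, (Ix C N (aA (yy N t)) (aB (yy N t)) : ℝ)) ≤ _ := h11
    _ ≤ 53 * (N : ℝ) ^ (5 + ε) + D * (N : ℝ) ^ (5 + ε) := by linarith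
    _ = (53 + D) * (N : ℝ) ^ (5 + ε) := by ring

end Pool.Helper17.R5
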